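import Mathlib

/-!
# b-colourings and powers of graphs: definitions
-/

set_option autoImplicit false

namespace Pool.Agent.R92.BChr

/-- The `k`-th power of `G`: two distinct vertices are adjacent iff their distance in `G` is at
most `k` (`edist` is the usual distance, equal to `⊤` for vertices in different components). -/
def power {V : Type*} (G : SimpleGraph V) (k : ℕ) : SimpleGraph V where
  Adj u v := u ≠ v ∧ G.edist u v ≤ (k : ℕ∞)
  symm := ⟨fun u v h => ⟨h.1.symm, by rw [SimpleGraph.edist_comm]; exact h.2⟩⟩
  loopless := ⟨fun _ h => h.1 rfl⟩

/-- `c` is a b-colouring of `G` with `t` colours: it is proper, uses all `t` colours, and every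
colour class contains a vertex that has a neighbour in each of the other `t - 1` classes. -/
structure IsBColoring {V : Type*} (G : SimpleGraph V) (t : ℕ) (c : V → Fin t) : Prop where
  proper : ∀ u v, G.Adj u v → c u ≠ c v
  surj : Function.Surjective c
  dominating : ∀ i : Fin t, ∃ v, c v = i ∧ ∀ j : Fin t, j ≠ i → ∃ w, G.Adj v w ∧ c w = j

/-- The b-chromatic number: the largest `t` such that `G` has a b-colouring with `t` colours
(for a finite graph the set of these `t` is bounded by the number of vertices). -/
noncomputable def bChromatic {V : Type*} (G : SimpleGraph V) : ℕ :=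
  sSup {t : ℕ | ∃ c : V → Fin t, IsBColoring G t c}

end Pool.Agent.R92.BChr
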