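import Pool.Agent.R92.BChr.Defs

set_option autoImplicit false

namespace Pool.Agent.R92.BChr

open SimpleGraph

/-- The distance table of the 9-vertex graph. -/
def D (x y : Fin 9) : ℕ :=
  (![![0, 2, 2, 2, 2, 1, 1, 1, 3],
     ![2, 0, 2, 2, 2, 1, 1, 3, 1],
     ![2, 2, 0, 4, 4, 3, 1, 3, 3],
     ![2, 2, 4, 0, 2, 3, 3, 1, 1],
     ![2, 2, 4, 2, 0, 3, 3, 1, 1],
     ![1, 1, 3, 3, 3, 0, 2, 2, 2],
     ![1, 1, 1, 3, 3, 2, 0, 2, 2],
     ![1, 3, 3, 1, 1, 2, 2, 0, 2],
     ![3, 1, 3, 1, 1, 2, 2, 2, 0]] : Fin 9 → Fin 9 → ℕ) x y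

/-- The 9-vertex graph, with edges
`05, 06, 07, 15, 16, 18, 26, 37, 38, 47, 48`. -/
def G9 : SimpleGraph (Fin 9) where
  Adj x y := D x y = 1
  symm := ⟨by decide⟩
  loopless := ⟨by decide⟩

theorem D_self : ∀ x, D x x = 0 := by decide

theorem D_eq_zero : ∀ x y, D x y = 0 → x = y := by decide

theorem D_lip : ∀ x y z, D y z = 1 → D x z ≤ D x y + 1 := by decide

theorem D_pred : ∀ x y, x ≠ y → ∃ z, D x z + 1 = D x y ∧ D z y = 1 := by decide

theorem D_le_length {x y : Fin 9} (p : G9.Walk x y) : D x y ≤ p.length := by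
  have key : ∀ (x y : Fin 9) (p : G9.Walk x y), ∀ z, D z y ≤ D z x + p.length := by
    intro x y p
    induction p with
    | nil => intro z; simp
    | cons h p ih =>
      intro z
      have h1 := ih z
      have h2 := D_lip z _ _ h
      rw [Walk.length_cons]
      omega
  have := key x y p x
  rw [D_self] at this
  omega

theorem exists_walk : ∀ (n : ℕ) (x y : Fin 9), D x y = n → ∃ p : G9.Walk x y, p.length = n := by
  intro n
  induction n with
  | zero =>
    intro x y h
    obtain rfl := D_eq_zero x y h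
    exact ⟨Walk.nil, rfl⟩
  | succ n ih =>
    intro x y h
    have hne : x ≠ y := by
      rintro rfl
      rw [D_self] at h
      omega
    obtain ⟨z, h1, h2⟩ := D_pred x y hne
    obtain ⟨p, hp⟩ := ih x z (by omega)
    have hadj : G9.Adj z y := h2
    exact ⟨p.concat hadj, by rw [Walk.length_concat, hp]⟩

theorem edist_G9 (x y : Fin 9) : G9.edist x y = (D x y : ℕ∞) := by
  apply le_antisymm
  · obtain ⟨p, hp⟩ := exists_walk (D x y) x y rfl
    have := SimpleGraph.edist_le p
    rwa [hp] at this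
  · rw [SimpleGraph.edist_eq_sInf]
    apply le_sInf
    rintro _ ⟨p, rfl⟩
    have h := D_le_length p
    show (D x y : ℕ∞) ≤ (p.length : ℕ∞)
    exact_mod_cast h

theorem connected_G9 : G9.Connected := by
  have : Nonempty (Fin 9) := ⟨0⟩
  refine ⟨fun x y => ?_⟩
  obtain ⟨p, _⟩ := exists_walk (D x y) x y rfl
  exact ⟨p⟩

/-- adjacency in the cube of the product -/
def A (u v : Fin 9 × Fin 2) : Bool :=
  decide (u ≠ v) && decide (D u.1 v.1 + (if u.2 = v.2 then 0 else 1) ≤ 3)

theorem adj_X (u v : Fin 9 × Fin 2) :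
    (power (G9 □ (⊤ : SimpleGraph (Fin 2))) 3).Adj u v ↔ A u v = true := by
  unfold power A
  simp only [SimpleGraph.edist_boxProd, edist_G9, SimpleGraph.edist_top, Bool.and_eq_true,
    decide_eq_true_eq]
  refine and_congr Iff.rfl ?_
  by_cases h : u.2 = v.2
  · rw [if_pos h, if_pos h]
    norm_cast
  · rw [if_neg h, if_neg h]
    norm_cast

/-- adjacency in the product of the cubes -/
def B (u v : Fin 9 × Fin 2) : Bool :=
  (decide (u.1 ≠ v.1 ∧ D u.1 v.1 ≤ 3) && decide (u.2 = v.2)) ||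
    (decide (u.2 ≠ v.2) && decide (u.1 = v.1))

theorem adj_Y (u v : Fin 9 × Fin 2) :
    (power G9 3 □ power (⊤ : SimpleGraph (Fin 2)) 3).Adj u v ↔ B u v = true := by
  rw [SimpleGraph.boxProd_adj]
  unfold power B
  simp only [edist_G9, SimpleGraph.edist_top, Bool.and_eq_true, Bool.or_eq_true,
    decide_eq_true_eq]
  have h1 : ((D u.1 v.1 : ℕ∞) ≤ ((3 : ℕ) : ℕ∞)) ↔ D u.1 v.1 ≤ 3 := by norm_cast
  have h2 : (if u.2 = v.2 then (0 : ℕ∞) else 1) ≤ ((3 : ℕ) : ℕ∞) := by
    split_ifs
    · exact zero_le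
    · norm_cast
  rw [h1]
  constructor
  · rintro (h | h)
    · exact Or.inl h
    · exact Or.inr ⟨h.1.1, h.2⟩
  · rintro (h | h)
    · exact Or.inl h
    · exact Or.inr ⟨⟨h.1, h2⟩, h.2⟩

/-! ### The b-colouring of the product of the cubes with nine colours -/

def cY (u : Fin 9 × Fin 2) : Fin 9 :=
  if u.2 = 0 then u.1 else (![1, 0, 3, 2, 5, 4, 7, 8, 6] : Fin 9 → Fin 9) u.1

/-- a b-vertex of each colour class -/
def bv : Fin 9 → Fin 9 × Fin 2 :=
  ![(0, 0), (1, 0), (3, 1), (3, 0), (5, 1), (5, 0), (6, 0), (7, 0), (8, 0)]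

theorem cY_isB :
    IsBColoring (power G9 3 □ power (⊤ : SimpleGraph (Fin 2)) 3) 9 cY := by
  refine ⟨?_, ?_, ?_⟩
  · intro u v h
    rw [adj_Y] at h
    revert u v
    decide
  · intro i
    exact ⟨(i, 0), by simp [cY]⟩
  · intro i
    have h1 : ∀ i : Fin 9, cY (bv i) = i := by decide
    have h2 : ∀ i j : Fin 9, j ≠ i → ∃ w, B (bv i) w = true ∧ cY w = j := by decide
    refine ⟨bv i, h1 i, fun j hj => ?_⟩
    obtain ⟨w, hw1, hw2⟩ := h2 i j hj
    exact ⟨w, (adj_Y _ _).2 hw1, hw2⟩

/-! ### The cube of the product has no b-colouring with more than eight colours -/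

section upper

variable {t : ℕ} {c : Fin 9 × Fin 2 → Fin t}

/-- `v` sees all the other colours -/
def IsB (c : Fin 9 × Fin 2 → Fin t) (v : Fin 9 × Fin 2) : Prop :=
  ∀ j : Fin t, j ≠ c v → ∃ w, A v w = true ∧ c w = j

/-- proper colourings, in terms of the table -/
def Proper (c : Fin 9 × Fin 2 → Fin t) : Prop := ∀ u v, A u v = true → c u ≠ c v

/-- every class has a vertex that sees all other colours -/
def Dom (c : Fin 9 × Fin 2 → Fin t) : Prop := ∀ u, ∃ v, c v = c u ∧ IsB c v

theorem step (hc : Proper c) {v w : Fin 9 × Fin 2} (hv : IsB c v) (hvw : c w ≠ c v) :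
    ∃ u, A v u = true ∧ c u = c w ∧ A u w = false := by
  obtain ⟨u, h1, h2⟩ := hv (c w) hvw
  refine ⟨u, h1, h2, ?_⟩
  by_contra h
  rw [Bool.not_eq_false] at h
  exact hc u w h h2

theorem nonadj (hc : Proper c) {u v : Fin 9 × Fin 2} (h : c u = c v) : A u v = false := by
  by_contra h'
  rw [Bool.not_eq_false] at h'
  exact hc u v h' h

/-- the class of `b5` is the class of `a2` -/
theorem five_two (hc : Proper c) (hd : Dom c) :
    ∀ i j : Fin 2, i ≠ j → c (5, j) = c (2, i) := by
  intro i j hij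
  have N2 : ∀ i j : Fin 2, i ≠ j → ∀ v, A v (2, i) = false →
      v = (2, i) ∨ v = (3, i) ∨ v = (4, i) ∨ v = (3, j) ∨ v = (4, j) ∨ v = (5, j) ∨
        v = (7, j) ∨ v = (8, j) := by decide
  have S25 : ∀ i j : Fin 2, i ≠ j → ∀ u, A (2, i) u = true → A u (5, j) = false → False := by
    decide
  have S71 : ∀ i j : Fin 2, i ≠ j → ∀ u, A (7, j) u = true → A u (1, i) = false → False := by
    decide
  have S80 : ∀ i j : Fin 2, i ≠ j → ∀ u, A (8, j) u = true → A u (0, i) = false → False := by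
    decide
  have S36 : ∀ i j : Fin 2, i ≠ j → ∀ u, A (3, i) u = true → A u (6, j) = false →
      u = (4, i) := by decide
  have S35 : ∀ i j : Fin 2, i ≠ j → ∀ u, A (3, i) u = true → A u (5, j) = false →
      u = (4, i) := by decide
  have S46 : ∀ i j : Fin 2, i ≠ j → ∀ u, A (4, i) u = true → A u (6, j) = false →
      u = (3, i) := by decide
  have S45 : ∀ i j : Fin 2, i ≠ j → ∀ u, A (4, i) u = true → A u (5, j) = false →
      u = (3, i) := by decide
  have A12 : ∀ i j : Fin 2, i ≠ j → A (1, i) (2, i) = true := by decide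
  have A02 : ∀ i j : Fin 2, i ≠ j → A (0, i) (2, i) = true := by decide
  have A62 : ∀ i j : Fin 2, i ≠ j → A (6, j) (2, i) = true := by decide
  have A62' : ∀ i j : Fin 2, i ≠ j → A (6, i) (2, i) = true := by decide
  have A52' : ∀ i j : Fin 2, i ≠ j → A (5, i) (2, i) = true := by decide
  have A56 : ∀ i j : Fin 2, i ≠ j → A (5, j) (6, j) = true := by decide
  obtain ⟨v, hv, hB⟩ := hd (2, i)
  rcases N2 i j hij v (nonadj hc hv) with rfl | rfl | rfl | rfl | rfl | rfl | rfl | rfl
  · by_contra hne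
    obtain ⟨u, h1, _, h3⟩ := step hc hB hne
    exact S25 i j hij u h1 h3
  · -- v = (3, i)
    have h6 : c (6, j) ≠ c (3, i) := by
      rw [hv]; exact hc _ _ (A62 i j hij)
    obtain ⟨u, h1, h2, h3⟩ := step hc hB h6
    obtain rfl := S36 i j hij u h1 h3
    by_cases h5 : c (5, j) = c (3, i)
    · rw [h5, hv]
    · obtain ⟨u, h1', h2', h3'⟩ := step hc hB h5
      obtain rfl := S35 i j hij u h1' h3'
      exact absurd (h2'.symm.trans h2) (hc _ _ (A56 i j hij))
  · -- v = (4, i)
    have h6 : c (6, j) ≠ c (4, i) := by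
      rw [hv]; exact hc _ _ (A62 i j hij)
    obtain ⟨u, h1, h2, h3⟩ := step hc hB h6
    obtain rfl := S46 i j hij u h1 h3
    by_cases h5 : c (5, j) = c (4, i)
    · rw [h5, hv]
    · obtain ⟨u, h1', h2', h3'⟩ := step hc hB h5
      obtain rfl := S45 i j hij u h1' h3'
      exact absurd (h2'.symm.trans h2) (hc _ _ (A56 i j hij))
  · -- v = (3, j)
    have h6 : c (6, i) ≠ c (3, j) := by
      rw [hv]; exact hc _ _ (A62' i j hij)
    have h5 : c (5, i) ≠ c (3, j) := by
      rw [hv]; exact hc _ _ (A52' i j hij)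
    obtain ⟨u, h1, h2, h3⟩ := step hc hB h6
    obtain rfl := S36 j i hij.symm u h1 h3
    obtain ⟨u, h1', h2', h3'⟩ := step hc hB h5
    obtain rfl := S35 j i hij.symm u h1' h3'
    exact absurd (h2'.symm.trans h2) (hc _ _ (A56 j i hij.symm))
  · -- v = (4, j)
    have h6 : c (6, i) ≠ c (4, j) := by
      rw [hv]; exact hc _ _ (A62' i j hij)
    have h5 : c (5, i) ≠ c (4, j) := by
      rw [hv]; exact hc _ _ (A52' i j hij)
    obtain ⟨u, h1, h2, h3⟩ := step hc hB h6
    obtain rfl := S46 j i hij.symm u h1 h3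
    obtain ⟨u, h1', h2', h3'⟩ := step hc hB h5
    obtain rfl := S45 j i hij.symm u h1' h3'
    exact absurd (h2'.symm.trans h2) (hc _ _ (A56 j i hij.symm))
  · exact hv
  · -- v = (7, j)
    have h1' : c (1, i) ≠ c (7, j) := by
      rw [hv]; exact hc _ _ (A12 i j hij)
    obtain ⟨u, h1, _, h3⟩ := step hc hB h1'
    exact (S71 i j hij u h1 h3).elim
  · have h1' : c (0, i) ≠ c (8, j) := by
      rw [hv]; exact hc _ _ (A02 i j hij)
    obtain ⟨u, h1, _, h3⟩ := step hc hB h1'
    exact (S80 i j hij u h1 h3).elim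

/-- `a3` or `a4` lies in the class of `a2` -/
theorem three_or_four (hc : Proper c) (hd : Dom c) :
    ∀ i j : Fin 2, i ≠ j → c (3, i) = c (2, i) ∨ c (4, i) = c (2, i) := by
  intro i j hij
  by_contra hcon
  push Not at hcon
  obtain ⟨h3, h4⟩ := hcon
  have h52 := five_two hc hd i j hij
  have h52' := five_two hc hd j i hij.symm
  have N3 : ∀ i j : Fin 2, i ≠ j → ∀ v, A v (3, i) = false →
      v = (3, i) ∨ v = (2, i) ∨ v = (2, j) ∨ v = (5, j) ∨ v = (6, j) := by decide
  have N4 : ∀ i j : Fin 2, i ≠ j → ∀ v, A v (4, i) = false →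
      v = (4, i) ∨ v = (2, i) ∨ v = (2, j) ∨ v = (5, j) ∨ v = (6, j) := by decide
  have S35 : ∀ i j : Fin 2, i ≠ j → ∀ u, A (3, i) u = true → A u (5, j) = false →
      u = (4, i) := by decide
  have S45 : ∀ i j : Fin 2, i ≠ j → ∀ u, A (4, i) u = true → A u (5, j) = false →
      u = (3, i) := by decide
  have A35 : ∀ i j : Fin 2, i ≠ j → A (3, i) (5, i) = true := by decide
  have A45 : ∀ i j : Fin 2, i ≠ j → A (4, i) (5, i) = true := by decide
  have A34 : ∀ i j : Fin 2, i ≠ j → A (3, i) (4, i) = true := by decide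
  have e3 : c (3, i) = c (6, j) := by
    obtain ⟨v, hv, hB⟩ := hd (3, i)
    rcases N3 i j hij v (nonadj hc hv) with rfl | rfl | rfl | rfl | rfl
    · have h5 : c (5, j) ≠ c (3, i) := by rw [h52]; exact h3.symm
      obtain ⟨u, h1', h2', h3'⟩ := step hc hB h5
      obtain rfl := S35 i j hij u h1' h3'
      exact absurd (h2'.trans h52) h4
    · exact absurd hv.symm h3
    · exact absurd (hv.symm.trans h52'.symm) (hc _ _ (A35 i j hij))
    · exact absurd (hv.symm.trans h52) h3
    · exact hv.symm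
  have e4 : c (4, i) = c (6, j) := by
    obtain ⟨v, hv, hB⟩ := hd (4, i)
    rcases N4 i j hij v (nonadj hc hv) with rfl | rfl | rfl | rfl | rfl
    · have h5 : c (5, j) ≠ c (4, i) := by rw [h52]; exact h4.symm
      obtain ⟨u, h1', h2', h3'⟩ := step hc hB h5
      obtain rfl := S45 i j hij u h1' h3'
      exact absurd (h2'.trans h52) h3
    · exact absurd hv.symm h4
    · exact absurd (hv.symm.trans h52'.symm) (hc _ _ (A45 i j hij))
    · exact absurd (hv.symm.trans h52) h4
    · exact hv.symm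
  exact absurd (e3.trans e4.symm) (hc _ _ (A34 i j hij))

/-- `{a3, a4}` meets the classes of `a2` and of `b6` -/
theorem three_four (hc : Proper c) (hd : Dom c) :
    ∀ i j : Fin 2, i ≠ j → (c (3, i) = c (2, i) ∧ c (4, i) = c (6, j)) ∨
      (c (4, i) = c (2, i) ∧ c (3, i) = c (6, j)) := by
  intro i j hij
  have h52 := five_two hc hd i j hij
  have h52' := five_two hc hd j i hij.symm
  have N6 : ∀ i j : Fin 2, i ≠ j → ∀ v, A v (6, j) = false →
      v = (6, j) ∨ v = (3, i) ∨ v = (4, i) := by decide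
  have S64 : ∀ i j : Fin 2, i ≠ j → ∀ u, (A (6, j) u && !A u (4, i)) = true →
      u = (2, i) ∨ u = (2, j) ∨ u = (5, j) := by decide
  have S63 : ∀ i j : Fin 2, i ≠ j → ∀ u, (A (6, j) u && !A u (3, i)) = true →
      u = (2, i) ∨ u = (2, j) ∨ u = (5, j) := by decide
  have A35 : ∀ i j : Fin 2, i ≠ j → A (3, i) (5, i) = true := by decide
  have A45 : ∀ i j : Fin 2, i ≠ j → A (4, i) (5, i) = true := by decide
  have A34 : ∀ i j : Fin 2, i ≠ j → A (3, i) (4, i) = true := by decide
  have A26 : ∀ i j : Fin 2, i ≠ j → A (2, i) (6, j) = true := by decide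
  rcases three_or_four hc hd i j hij with h | h
  · refine Or.inl ⟨h, ?_⟩
    by_contra hne
    obtain ⟨v, hv, hB⟩ := hd (6, j)
    rcases N6 i j hij v (nonadj hc hv) with rfl | rfl | rfl
    · obtain ⟨u, h1, h2, h3⟩ := step hc hB hne
      rcases S64 i j hij u (by rw [h1, h3]; rfl) with rfl | rfl | rfl
      · exact hc _ _ (A34 i j hij) (h.trans h2)
      · exact hc _ _ (A45 i j hij) (h2.symm.trans h52'.symm)
      · exact hc _ _ (A34 i j hij) (h.trans (h52.symm.trans h2))
    · exact hc _ _ (A26 i j hij) (h.symm.trans hv)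
    · exact hne hv
  · refine Or.inr ⟨h, ?_⟩
    by_contra hne
    obtain ⟨v, hv, hB⟩ := hd (6, j)
    rcases N6 i j hij v (nonadj hc hv) with rfl | rfl | rfl
    · obtain ⟨u, h1, h2, h3⟩ := step hc hB hne
      rcases S63 i j hij u (by rw [h1, h3]; rfl) with rfl | rfl | rfl
      · exact hc _ _ (A34 i j hij) (h.trans h2).symm
      · exact hc _ _ (A35 i j hij) (h2.symm.trans h52'.symm)
      · exact hc _ _ (A34 i j hij) (h.trans (h52.symm.trans h2)).symm
    · exact hne hv
    · exact hc _ _ (A26 i j hij) (h.symm.trans hv)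

/-- `a0` and `b8` have the same colour -/
theorem zero_eight (hc : Proper c) (hd : Dom c) :
    ∀ i j : Fin 2, i ≠ j → c (0, i) = c (8, j) := by
  intro i j hij
  have h52 := five_two hc hd i j hij
  have N0 : ∀ i j : Fin 2, i ≠ j → ∀ v, A v (0, i) = false → v = (0, i) ∨ v = (8, j) := by
    decide
  have S08 : ∀ i j : Fin 2, i ≠ j → ∀ u, A (0, i) u = true → A u (8, j) = false →
      u = (2, i) := by decide
  have A58 : ∀ i j : Fin 2, i ≠ j → A (5, j) (8, j) = true := by decide
  by_contra hne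
  obtain ⟨v, hv, hB⟩ := hd (0, i)
  rcases N0 i j hij v (nonadj hc hv) with rfl | rfl
  · obtain ⟨u, h1, h2, h3⟩ := step hc hB (Ne.symm hne)
    obtain rfl := S08 i j hij u h1 h3
    exact hc _ _ (A58 i j hij) (h52.trans h2)
  · exact hne hv.symm

/-- `a1` and `b7` have the same colour -/
theorem one_seven (hc : Proper c) (hd : Dom c) :
    ∀ i j : Fin 2, i ≠ j → c (1, i) = c (7, j) := by
  intro i j hij
  have h52 := five_two hc hd i j hij
  have N1 : ∀ i j : Fin 2, i ≠ j → ∀ v, A v (1, i) = false → v = (1, i) ∨ v = (7, j) := by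
    decide
  have S17 : ∀ i j : Fin 2, i ≠ j → ∀ u, A (1, i) u = true → A u (7, j) = false →
      u = (2, i) := by decide
  have A57 : ∀ i j : Fin 2, i ≠ j → A (5, j) (7, j) = true := by decide
  by_contra hne
  obtain ⟨v, hv, hB⟩ := hd (1, i)
  rcases N1 i j hij v (nonadj hc hv) with rfl | rfl
  · obtain ⟨u, h1, h2, h3⟩ := step hc hB (Ne.symm hne)
    obtain rfl := S17 i j hij u h1 h3
    exact hc _ _ (A57 i j hij) (h52.trans h2)
  · exact hne hv.symm

/-- every colour is the colour of one of eight vertices -/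
theorem image_subset (hc : Proper c) (hd : Dom c) :
    ∀ v, c v ∈ ({c (2, 0), c (2, 1), c (6, 0), c (6, 1), c (0, 0), c (0, 1), c (1, 0),
      c (1, 1)} : Finset (Fin t)) := by
  intro v
  have h01 : (0 : Fin 2) ≠ 1 := by decide
  have a1 := five_two hc hd 0 1 h01
  have a2 := five_two hc hd 1 0 h01.symm
  have a3 := three_four hc hd 0 1 h01
  have a4 := three_four hc hd 1 0 h01.symm
  have a5 := zero_eight hc hd 0 1 h01
  have a6 := zero_eight hc hd 1 0 h01.symm
  have a7 := one_seven hc hd 0 1 h01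
  have a8 := one_seven hc hd 1 0 h01.symm
  simp only [Finset.mem_insert, Finset.mem_singleton]
  obtain ⟨x, i⟩ := v
  fin_cases i
  · fin_cases x
    · simp
    · simp
    · simp
    · rcases a3 with ⟨h, _⟩ | ⟨_, h⟩
      · left; exact h
      · right; right; right; left; exact h
    · rcases a3 with ⟨_, h⟩ | ⟨h, _⟩
      · right; right; right; left; exact h
      · left; exact h
    · right; left; exact a2
    · simp
    · right; right; right; right; right; right; right; exact a8.symm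
    · right; right; right; right; right; left; exact a6.symm
  · fin_cases x
    · simp
    · simp
    · simp
    · rcases a4 with ⟨h, _⟩ | ⟨_, h⟩
      · right; left; exact h
      · right; right; left; exact h
    · rcases a4 with ⟨_, h⟩ | ⟨h, _⟩
      · right; right; left; exact h
      · right; left; exact h
    · left; exact a1
    · simp
    · right; right; right; right; right; right; left; exact a7.symm
    · right; right; right; right; left; exact a5.symm

end upper

theorem upper {t : ℕ} {c : Fin 9 × Fin 2 → Fin t}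
    (h : IsBColoring (power (G9 □ (⊤ : SimpleGraph (Fin 2))) 3) t c) : t ≤ 8 := by
  have hc : Proper c := fun u v huv => h.proper u v ((adj_X u v).2 huv)
  have hd : Dom c := by
    intro u
    obtain ⟨v, hv, hw⟩ := h.dominating (c u)
    refine ⟨v, hv, fun j hj => ?_⟩
    rw [hv] at hj
    obtain ⟨w, h1, h2⟩ := hw j hj
    exact ⟨w, (adj_X v w).1 h1, h2⟩
  have himg := image_subset hc hd
  have huniv : (Finset.univ : Finset (Fin t)) ⊆
      ({c (2, 0), c (2, 1), c (6, 0), c (6, 1), c (0, 0), c (0, 1), c (1, 0),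
      c (1, 1)} : Finset (Fin t)) := by
    intro x _
    obtain ⟨v, rfl⟩ := h.surj x
    exact himg v
  have hcard := Finset.card_le_card huniv
  rw [Finset.card_univ, Fintype.card_fin] at hcard
  refine hcard.trans ?_
  refine (Finset.card_insert_le _ _).trans (Nat.succ_le_succ ?_)
  refine (Finset.card_insert_le _ _).trans (Nat.succ_le_succ ?_)
  exact Finset.card_le_six

theorem bChromatic_lt :
    bChromatic (power (G9 □ (⊤ : SimpleGraph (Fin 2))) 3) ≤ 8 ∧
      9 ≤ bChromatic (power G9 3 □ power (⊤ : SimpleGraph (Fin 2)) 3) ∧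
    bChromatic (power (G9 □ (⊤ : SimpleGraph (Fin 2))) 3) <
      bChromatic (power G9 3 □ power (⊤ : SimpleGraph (Fin 2)) 3) := by
  have h1 : bChromatic (power (G9 □ (⊤ : SimpleGraph (Fin 2))) 3) ≤ 8 := by
    unfold bChromatic
    by_cases hne : {t : ℕ | ∃ c : Fin 9 × Fin 2 → Fin t,
        IsBColoring (power (G9 □ (⊤ : SimpleGraph (Fin 2))) 3) t c}.Nonempty
    · apply csSup_le hne
      rintro t ⟨c, hc⟩
      exact upper hc
    · rw [Set.not_nonempty_iff_eq_empty] at hne
      rw [hne]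
      simp
  have h2 : 9 ≤ bChromatic (power G9 3 □ power (⊤ : SimpleGraph (Fin 2)) 3) := by
    unfold bChromatic
    apply le_csSup
    · refine ⟨18, ?_⟩
      rintro t ⟨c, hc⟩
      have := Fintype.card_le_of_surjective c hc.surj
      simpa using this
    · exact ⟨cY, cY_isB⟩
  exact ⟨h1, h2, by omega⟩

theorem main :
    ∃ (G : SimpleGraph (Fin 9)) (H : SimpleGraph (Fin 2)), G.Connected ∧ H.Connected ∧
      bChromatic (power (G □ H) 3) ≤ 8 ∧ 9 ≤ bChromatic (power G 3 □ power H 3) ∧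
      bChromatic (power (G □ H) 3) < bChromatic (power G 3 □ power H 3) :=
  ⟨G9, ⊤, connected_G9, SimpleGraph.connected_top, bChromatic_lt⟩

end Pool.Agent.R92.BChr
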